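import Pool.Agent.H760Z.Dix.Main

/-!
# MP_9105af_an: the noncommutative integral need not be normal on the bicommutant

Example: `H = ℓ²(ℕ × ℤ)`, `D e_{k,j} = max(k, |j|) e_{k,j}`, `A` the unital star algebra generated
by the bilateral shift `e_{k,j} ↦ e_{k,j-1}` and the projections `P_m` onto `{k < m}`.
Here `n = 2`, every `P_m ⟨D⟩^{-2}` is trace class, `P_m` increases to `1`, and
`Tr_ω(⟨D⟩^{-2}) ≥ 1` for every generalised limit `ω`.
-/

set_option autoImplicit false

namespace Pool.Agent.Results.MP_9105af_an.ANotNormal

open Pool.Agent.H760Z.Dix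

/-- There is a separable Hilbert space carrying a spectral triple `(A, H, D)`, of dimension `n`
with `⟨D⟩^{-n} ∈ M_{1,∞}`, whose bicommutant `A''` is commutative and contains no nonzero finite
rank operator, such that `Φ_ω(S) = Tr_ω(S ⟨D⟩^{-n})` is not normal on `A''` for some Dixmier trace,
and indeed for every generalised limit `ω`. -/
theorem result :
    ∃ (H : Type) (_ : NormedAddCommGroup H) (_ : InnerProductSpace ℂ H) (_ : CompleteSpace H),
      TopologicalSpace.SeparableSpace H ∧ CarriesNonNormalTriple H :=
  ⟨L2 I, inferInstance, inferInstance, inferInstance,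
    separable_L2, AA, DD, BB, 2, spectralTriple, bicomm_comm, no_finite_rank,
    ⟨omega0, omega0_genLimit, omega0_dilation, not_normal _ omega0_genLimit⟩, not_normal⟩

end Pool.Agent.Results.MP_9105af_an.ANotNormal
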